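import Mathlib

set_option autoImplicit false

/-!
# Approximation of reals by products of boundedly many fractions with small terms
-/

namespace Pool.Agent.SqrtParity

open Real

/-- alternating finite difference -/
def fd : ℕ → (ℝ → ℝ) → ℝ → ℝ
  | 0, F => F
  | m + 1, F => fun t => fd m F t - fd m F (t + 1)

/-- `-log` and its successive negated derivatives -/
noncomputable def aL : ℕ → ℝ → ℝ
  | 0 => fun t => -Real.log t
  | s + 1 => fun t => (s.factorial : ℝ) / t ^ (s + 1)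

theorem aL_hasDerivAt (s : ℕ) {t : ℝ} (ht : 0 < t) :
    HasDerivAt (aL s) (-(aL (s + 1) t)) t := by
  cases s with
  | zero =>
    have := (Real.hasDerivAt_log ht.ne').neg
    refine this.congr_deriv ?_
    simp [aL]
  | succ s =>
    have h : HasDerivAt (fun x : ℝ => (s.factorial : ℝ) * (x ^ (s + 1))⁻¹)
        ((s.factorial : ℝ) * (-(((s + 1 : ℕ) : ℝ) * t ^ s) / (t ^ (s + 1)) ^ 2)) t :=
      ((hasDerivAt_pow (s + 1) t).fun_inv (by positivity)).const_mul _
    have h2 : (fun x : ℝ => (s.factorial : ℝ) * (x ^ (s + 1))⁻¹) = aL (s + 1) := by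
      funext x
      simp only [aL, div_eq_mul_inv]
    rw [h2] at h
    refine h.congr_deriv ?_
    simp only [aL, Nat.factorial_succ]
    push_cast
    have : t ^ (s + 1) ≠ 0 := by positivity
    field_simp
    ring

theorem fd_hasDerivAt (m : ℕ) : ∀ (s : ℕ) {t : ℝ}, 0 < t →
    HasDerivAt (fd m (aL s)) (-(fd m (aL (s + 1)) t)) t := by
  induction m with
  | zero => intro s t ht; exact aL_hasDerivAt s ht
  | succ m ih =>
    intro s t ht
    have h1 := ih s ht
    have h2 : HasDerivAt (fun x => fd m (aL s) (x + 1)) (-(fd m (aL (s + 1)) (t + 1))) t :=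
      (ih s (t := t + 1) (by linarith)).comp_add_const t 1
    have h3 := h1.sub h2
    refine h3.congr_deriv ?_
    show _ = -(fd m (aL (s + 1)) t - fd m (aL (s + 1)) (t + 1))
    ring

theorem fd_eq (m : ℕ) : ∀ (s : ℕ) {t : ℝ}, 0 < t →
    ∃ ξ, t ≤ ξ ∧ ξ ≤ t + m ∧ fd m (aL s) t = aL (s + m) ξ := by
  induction m with
  | zero => intro s t _; exact ⟨t, le_rfl, by simp, rfl⟩
  | succ m ih =>
    intro s t ht
    obtain ⟨η, hη, hη2⟩ := exists_hasDerivAt_eq_slope (fd m (aL s))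
      (fun x => -(fd m (aL (s + 1)) x)) (show t < t + 1 by linarith)
      (fun x hx => (fd_hasDerivAt m s (by linarith [hx.1])).continuousAt.continuousWithinAt)
      (fun x hx => fd_hasDerivAt m s (by linarith [hx.1]))
    obtain ⟨ξ, hξ1, hξ2, hξ3⟩ := ih (s + 1) (t := η) (by linarith [hη.1])
    refine ⟨ξ, by linarith [hη.1], by push_cast; linarith [hη.2], ?_⟩
    have e : fd (m + 1) (aL s) t = fd m (aL s) t - fd m (aL s) (t + 1) := rfl
    rw [e, show s + (m + 1) = s + 1 + m by ring, ← hξ3]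
    have : (t + 1 - t : ℝ) = 1 := by ring
    rw [this, div_one] at hη2
    linarith

/-- the sum of the logarithms of the fractions in a list -/
noncomputable def lsum (l : List (ℕ × ℕ)) : ℝ :=
  (l.map (fun v => Real.log v.1 - Real.log v.2)).sum

theorem lsum_nil : lsum [] = 0 := rfl

theorem lsum_cons (v : ℕ × ℕ) (l : List (ℕ × ℕ)) :
    lsum (v :: l) = Real.log v.1 - Real.log v.2 + lsum l := by
  simp [lsum]

theorem lsum_append (l l' : List (ℕ × ℕ)) : lsum (l ++ l') = lsum l + lsum l' := by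
  simp [lsum]

theorem lsum_swap (l : List (ℕ × ℕ)) : lsum (l.map Prod.swap) = - lsum l := by
  induction l with
  | nil => simp [lsum_nil]
  | cons v l ih => rw [List.map_cons, lsum_cons, ih, lsum_cons, Prod.fst_swap, Prod.snd_swap]; ring

/-- the fractions allowed: positive terms of size at most `A`, ratio between `1/2` and `2` -/
def Ok (A : ℝ) (v : ℕ × ℕ) : Prop :=
  1 ≤ v.1 ∧ 1 ≤ v.2 ∧ v.1 ≤ 2 * v.2 ∧ v.2 ≤ 2 * v.1 ∧ (v.1 : ℝ) ≤ A ∧ (v.2 : ℝ) ≤ A

theorem Ok.swap {A : ℝ} {v : ℕ × ℕ} (h : Ok A v) : Ok A v.swap :=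
  ⟨h.2.1, h.1, h.2.2.2.1, h.2.2.1, h.2.2.2.2.2, h.2.2.2.2.1⟩

/-- `ψ` is the logarithm of a product of at most `k` allowed fractions -/
def IsL (A : ℝ) (k : ℕ) (ψ : ℝ) : Prop :=
  ∃ l : List (ℕ × ℕ), l.length ≤ k ∧ (∀ v ∈ l, Ok A v) ∧ lsum l = ψ

theorem IsL.mono {A : ℝ} {k k' : ℕ} {ψ : ℝ} (h : IsL A k ψ) (hk : k ≤ k') :
    IsL A k' ψ := by
  obtain ⟨l, h1, h2, h3⟩ := h
  exact ⟨l, h1.trans hk, h2, h3⟩

theorem IsL.zero (A : ℝ) : IsL A 0 0 := ⟨[], by simp, by simp, rfl⟩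

theorem IsL.add {A : ℝ} {k k' : ℕ} {ψ ψ' : ℝ} (h : IsL A k ψ)
    (h' : IsL A k' ψ') : IsL A (k + k') (ψ + ψ') := by
  obtain ⟨l, h1, h2, h3⟩ := h
  obtain ⟨l', h1', h2', h3'⟩ := h'
  refine ⟨l ++ l', by rw [List.length_append]; omega, ?_, ?_⟩
  · intro v hv
    rcases List.mem_append.1 hv with h | h
    · exact h2 v h
    · exact h2' v h
  · rw [lsum_append, h3, h3']

theorem IsL.neg {A : ℝ} {k : ℕ} {ψ : ℝ} (h : IsL A k ψ) : IsL A k (-ψ) := by
  obtain ⟨l, h1, h2, h3⟩ := h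
  refine ⟨l.map Prod.swap, by simpa using h1, ?_, by rw [lsum_swap, h3]⟩
  intro v hv
  rw [List.mem_map] at hv
  obtain ⟨w, hw, rfl⟩ := hv
  exact (h2 w hw).swap

theorem IsL.sub {A : ℝ} {k k' : ℕ} {ψ ψ' : ℝ} (h : IsL A k ψ)
    (h' : IsL A k' ψ') : IsL A (k + k') (ψ - ψ') := by
  rw [sub_eq_add_neg]; exact h.add h'.neg

theorem IsL.nsmul {A : ℝ} {k : ℕ} {ψ : ℝ} (h : IsL A k ψ) (n : ℕ) :
    IsL A (n * k) (n * ψ) := by
  induction n with
  | zero => simpa using IsL.zero A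
  | succ n ih =>
    have := ih.add h
    have e1 : (n + 1) * k = n * k + k := by ring
    have e2 : ((n + 1 : ℕ) : ℝ) * ψ = n * ψ + ψ := by push_cast; ring
    rw [e1, e2]; exact this

theorem isL_fd {A : ℝ} (m : ℕ) : ∀ {N j : ℕ}, 1 ≤ N → j ≤ N → ((N + j + m : ℕ) : ℝ) ≤ A →
    IsL A (2 ^ m) (fd m (aL 0) N - fd m (aL 0) ((N + j : ℕ) : ℝ)) := by
  induction m with
  | zero =>
    intro N j hN hj hA
    refine ⟨[(N + j, N)], by simp, ?_, ?_⟩
    · intro v hv
      rw [List.mem_singleton] at hv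
      subst hv
      refine ⟨by simp; omega, by simpa using hN, by simp; omega, by simp; omega, ?_, ?_⟩
      · simpa using hA
      · have : (N : ℝ) ≤ ((N + j + 0 : ℕ) : ℝ) := by exact_mod_cast (by omega)
        exact this.trans hA
    · simp only [lsum_cons, lsum_nil, fd, aL]
      ring
  | succ m ih =>
    intro N j hN hj hA
    have h1 := ih hN hj (le_trans (by exact_mod_cast (by omega)) hA)
    have h2 := ih (N := N + 1) (j := j) (by omega) (by omega)
      (le_trans (by exact_mod_cast (by omega)) hA)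
    have h3 := h1.sub h2
    have e : fd (m + 1) (aL 0) N - fd (m + 1) (aL 0) ((N + j : ℕ) : ℝ)
        = fd m (aL 0) N - fd m (aL 0) ((N + j : ℕ) : ℝ)
          - (fd m (aL 0) ((N + 1 : ℕ) : ℝ) - fd m (aL 0) ((N + 1 + j : ℕ) : ℝ)) := by
      simp only [fd]; push_cast; ring_nf
    rw [e]
    exact h3.mono (by rw [pow_succ]; omega)

/-- discrete intermediate value -/
theorem exists_step (h : ℕ → ℝ) (h0 : h 0 = 0) (N : ℕ) (e δ : ℝ) (he : 0 ≤ e) (heN : e ≤ h N)
    (hδ : 0 ≤ δ) (hstep : ∀ j < N, h (j + 1) - h j ≤ δ) : ∃ j ≤ N, |e - h j| ≤ δ := by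
  classical
  obtain ⟨j, hj⟩ : ∃ j, j = Nat.findGreatest (fun j => h j ≤ e) N := ⟨_, rfl⟩
  have hjN : j ≤ N := by rw [hj]; exact Nat.findGreatest_le N
  have hPj : h j ≤ e := by
    rw [hj]
    exact Nat.findGreatest_spec (P := fun j => h j ≤ e) (Nat.zero_le N) (by rw [h0]; exact he)
  refine ⟨j, hjN, ?_⟩
  rw [abs_of_nonneg (by linarith)]
  rcases eq_or_lt_of_le hjN with h1 | h1
  · rw [h1] at hPj ⊢; linarith
  · have h2 : ¬ h (j + 1) ≤ e := by
      have := Nat.findGreatest_is_greatest (P := fun j => h j ≤ e) (n := N) (k := j + 1)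
        (by rw [← hj]; omega) (by omega)
      exact this
    push Not at h2
    have := hstep j h1
    linarith

/-- one level of the net -/
theorem net_level (m : ℕ) : ∃ c c' A0 : ℝ, 0 < c ∧ 0 < c' ∧ 1 ≤ A0 ∧
    ∀ A, A0 ≤ A → ∀ e, 0 ≤ e → e ≤ c / A ^ m →
      ∃ ψ, IsL A (2 ^ m) ψ ∧ |e - ψ| ≤ c' / A ^ (m + 1) := by
  have hf : (0 : ℝ) < m.factorial := by exact_mod_cast m.factorial_pos
  refine ⟨m.factorial / 8, m.factorial * 8 ^ (m + 1), 8 * m + 32, by positivity, by positivity,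
    ?_, ?_⟩
  · have : (0 : ℝ) ≤ m := by positivity
    linarith
  intro A hA e he0 he
  have hm0 : (0 : ℝ) ≤ m := by positivity
  have hA0 : 0 < A := by linarith
  obtain ⟨N, hN⟩ : ∃ N : ℕ, N = ⌊A / 4⌋₊ := ⟨_, rfl⟩
  have hN1 : (N : ℝ) ≤ A / 4 := by rw [hN]; exact Nat.floor_le (by positivity)
  have hN2 : A / 4 < N + 1 := by rw [hN]; exact Nat.lt_floor_add_one _
  have hN3 : 1 ≤ N := by
    have : (1 : ℝ) < N + 1 := by linarith
    have : (0 : ℝ) < N := by linarith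
    exact_mod_cast this
  obtain ⟨H, hH⟩ : ∃ H : ℕ → ℝ, ∀ j, H j
      = fd m (aL 0) N - fd m (aL 0) ((N + j : ℕ) : ℝ) := ⟨fun j => _, fun j => rfl⟩
  have hH0 : H 0 = 0 := by rw [hH]; simp
  have hstep : ∀ j < N, m.factorial / A ^ (m + 1) ≤ H (j + 1) - H j ∧
      H (j + 1) - H j ≤ m.factorial * 8 ^ (m + 1) / A ^ (m + 1) := by
    intro j hj
    have hjN : (j : ℝ) + 1 ≤ N := by exact_mod_cast hj
    have hj0 : (0 : ℝ) ≤ j := by positivity
    have e1 : H (j + 1) - H j = fd (m + 1) (aL 0) ((N + j : ℕ) : ℝ) := by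
      rw [hH, hH]
      simp only [fd]
      push_cast
      ring_nf
    have ht0 : (0 : ℝ) < ((N + j : ℕ) : ℝ) := by push_cast; linarith
    obtain ⟨ξ, hξ1, hξ2, hξ3⟩ := fd_eq (m + 1) 0 ht0
    rw [e1, hξ3, zero_add]
    push_cast at hξ1 hξ2
    have hξ8 : A / 8 ≤ ξ := by linarith
    have hξA : ξ ≤ A := by linarith
    have hξ0 : 0 < ξ := by linarith
    simp only [aL]
    constructor
    · gcongr
    · calc (m.factorial : ℝ) / ξ ^ (m + 1) ≤ m.factorial / (A / 8) ^ (m + 1) := by gcongr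
        _ = m.factorial * 8 ^ (m + 1) / A ^ (m + 1) := by rw [div_pow]; field_simp
  have hHN : ∀ j ≤ N, (j : ℝ) * (m.factorial / A ^ (m + 1)) ≤ H j := by
    intro j
    induction j with
    | zero => intro _; rw [hH0]; simp
    | succ j ih =>
      intro hj
      have h1 := ih (by omega)
      have h2 := (hstep j (by omega)).1
      push_cast
      linarith
  have heN : e ≤ H N := by
    calc e ≤ m.factorial / 8 / A ^ m := he
      _ = (A / 8) * (m.factorial / A ^ (m + 1)) := by rw [pow_succ A m]; field_simp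
      _ ≤ N * (m.factorial / A ^ (m + 1)) := by
          gcongr; linarith
      _ ≤ H N := hHN N le_rfl
  obtain ⟨j, hjN, hj⟩ := exists_step H hH0 N e (m.factorial * 8 ^ (m + 1) / A ^ (m + 1)) he0 heN
    (by positivity) (fun j hj => (hstep j hj).2)
  refine ⟨H j, ?_, hj⟩
  rw [hH]
  have hjN' : (j : ℝ) ≤ N := by exact_mod_cast hjN
  apply isL_fd m hN3 hjN
  push_cast; linarith

/-- every real in `[-1, 1]` is approximated within `c / A ^ r` by the logarithm of a product of `k`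
fractions with terms at most `A`; `k` and `c` depend on `r` only. -/
theorem approx (r : ℕ) : ∃ (k : ℕ) (c A0 : ℝ), 0 < c ∧ 1 ≤ A0 ∧
    ∀ A, A0 ≤ A → ∀ φ : ℝ, |φ| ≤ 1 → ∃ ψ, IsL A k ψ ∧ |φ - ψ| ≤ c / A ^ r := by
  induction r with
  | zero =>
    refine ⟨0, 1, 1, by norm_num, le_rfl, fun A hA φ hφ => ⟨0, IsL.zero A, ?_⟩⟩
    simpa using hφ
  | succ r ih =>
    obtain ⟨k, c, A0, hc, hA0, h⟩ := ih
    obtain ⟨a, a', A1, ha, ha', hA1, h'⟩ := net_level r
    obtain ⟨M, hM⟩ : ∃ M : ℕ, M = ⌈c / a⌉₊ := ⟨_, rfl⟩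
    have hMge : c / a ≤ M := by rw [hM]; exact Nat.le_ceil _
    have hM0 : (0 : ℝ) < M := lt_of_lt_of_le (by positivity) hMge
    refine ⟨k + M * 2 ^ r, M * a', max A0 A1, by positivity, le_max_of_le_left hA0, ?_⟩
    intro A hA φ hφ
    have hA0' : 0 < A := by linarith [le_max_left A0 A1]
    obtain ⟨ψ, h1, h2⟩ := h A ((le_max_left _ _).trans hA) φ hφ
    obtain ⟨ψ', h3, h4⟩ := h' A ((le_max_right _ _).trans hA) (|φ - ψ| / M) (by positivity) (by
      rw [div_le_iff₀ hM0]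
      calc |φ - ψ| ≤ c / A ^ r := h2
        _ = a / A ^ r * (c / a) := by field_simp
        _ ≤ a / A ^ r * M := by gcongr)
    have h5 : |(|φ - ψ|) - M * ψ'| ≤ M * a' / A ^ (r + 1) := by
      have : |φ - ψ| - M * ψ' = M * (|φ - ψ| / M - ψ') := by field_simp
      rw [this, abs_mul, abs_of_pos hM0]
      calc M * |(|φ - ψ|) / M - ψ'| ≤ M * (a' / A ^ (r + 1)) := by gcongr
        _ = _ := by ring
    rcases le_total 0 (φ - ψ) with h0 | h0
    · rw [abs_of_nonneg h0] at h5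
      refine ⟨ψ + M * ψ', h1.add (h3.nsmul M), ?_⟩
      have : φ - (ψ + M * ψ') = φ - ψ - M * ψ' := by ring
      rw [this]; exact h5
    · rw [abs_of_nonpos h0] at h5
      refine ⟨ψ - M * ψ', h1.sub (h3.nsmul M), ?_⟩
      have : φ - (ψ - M * ψ') = -(-(φ - ψ) - M * ψ') := by ring
      rw [this, abs_neg]; exact h5

end Pool.Agent.SqrtParity
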