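import Mathlib
import Pool.Agent.SqrtParity.Chain

set_option autoImplicit false

/-!
# A lower bound for the number of sign changes
-/

namespace Pool.Agent.SqrtParity

open Real

theorem card_le_interval (F : Finset ℕ) {α β : ℝ} (h : ∀ n ∈ F, α ≤ n ∧ (n : ℝ) ≤ β)
    (hαβ : α ≤ β) : (F.card : ℝ) ≤ β - α + 1 := by
  rcases F.eq_empty_or_nonempty with h0 | h0
  · rw [h0]; simp; linarith
  · have h1 : F ⊆ Finset.Icc (F.min' h0) (F.max' h0) := by
      intro n hn
      rw [Finset.mem_Icc]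
      exact ⟨F.min'_le n hn, F.le_max' n hn⟩
    have h2 := Finset.card_le_card h1
    rw [Nat.card_Icc] at h2
    have h3 := (h _ (F.min'_mem h0)).1
    have h4 := (h _ (F.max'_mem h0)).2
    have h5 : F.min' h0 ≤ F.max' h0 := F.min'_le _ (F.max'_mem h0)
    have h6 : (F.card : ℝ) + F.min' h0 ≤ F.max' h0 + 1 := by
      have : F.card + F.min' h0 ≤ F.max' h0 + 1 := by omega
      exact_mod_cast this
    linarith

open Classical in
/-- the sign changes between `X / W` and `W X` -/
noncomputable def signSet (f : ℕ → ℤ) (W X : ℕ) : Finset ℕ :=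
  (Finset.Icc 1 (W * X)).filter (fun s => X ≤ W * s ∧ f s ≠ f (s + 1))

theorem sign_raw {f : ℕ → ℤ} (hf : CM f) {η D : ℝ} (hη : η ≤ 1 / 2) (hη0 : 0 < η)
    (hD : 1 ≤ D) (l : List (ℕ × ℕ)) (X K : ℕ) (hX : 1 ≤ X) (hK : l.length ≤ K)
    (hl : ∀ v ∈ l, St D v) (hx : 4 ^ K * D ≤ η * X) (hlog : |lsum l| ≤ η / 4)
    (hs : sprod f l = -1) :
    1 ≤ (K + 1) * ((signSet f (3 * 4 ^ K) X).card : ℝ) * (9 * η) := by
  classical
  have hX0 : (0 : ℝ) < X := by exact_mod_cast hX
  have h4K : (1 : ℝ) ≤ 4 ^ K := one_le_pow₀ (by norm_num)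
  have hηX : 1 ≤ η * X := by nlinarith
  have hlen : (4 : ℝ) ^ l.length ≤ 4 ^ K := pow_le_pow_right₀ (by norm_num) hK
  have key : Finset.Ioc X (2 * X) ⊆ l.inits.toFinset.biUnion (fun l' =>
      (signSet f (3 * 4 ^ K) X).biUnion (fun s => (Finset.Ioc X (2 * X)).filter (fun n : ℕ =>
        (n : ℝ) * tprod l' * (1 - η) ≤ s ∧ (s : ℝ) ≤ n * tprod l' * (1 + η)))) := by
    intro n hn
    have hn' := Finset.mem_Ioc.1 hn
    have hnX : (X : ℝ) ≤ n := by exact_mod_cast hn'.1.le
    have hnX2 : (n : ℝ) ≤ 2 * X := by exact_mod_cast hn'.2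
    obtain ⟨l', hl', hbad⟩ := chain_close hf (by linarith) hη0 hD l n (by omega) hl (by
      calc 4 ^ l.length * D ≤ 4 ^ K * D := by gcongr
        _ ≤ η * X := hx
        _ ≤ η * n := by gcongr) hlog hs
    rw [Clean] at hbad
    push Not at hbad
    obtain ⟨s, hs1, hs2, hs3⟩ := hbad
    have hpre := (List.mem_inits _ _).1 hl'
    have hl'St : ∀ v ∈ l', St D v := fun v hv => hl v (hpre.subset hv)
    have hl'len : l'.length ≤ K := hpre.length_le.trans hK
    obtain ⟨hT1, hT2⟩ := tprod_bounds l' hl'St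
    have hT1' : 1 / 4 ^ K ≤ tprod l' := by
      refine le_trans ?_ hT1
      rw [one_div_pow]
      apply one_div_le_one_div_of_le (by positivity)
      exact pow_le_pow_right₀ (by norm_num) hl'len
    have hT2' : tprod l' ≤ 4 ^ K := hT2.trans (pow_le_pow_right₀ (by norm_num) hl'len)
    have hT0 : 0 < tprod l' := lt_of_lt_of_le (by positivity) hT1'
    rw [Finset.mem_biUnion]
    refine ⟨l', List.mem_toFinset.2 hl', ?_⟩
    rw [Finset.mem_biUnion]
    refine ⟨s, ?_, ?_⟩
    · rw [signSet, Finset.mem_filter, Finset.mem_Icc]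
      have hlow : (X : ℝ) ≤ 2 * 4 ^ K * s := by
        have : (X : ℝ) * (1 / 4 ^ K) * (1 / 2) ≤ s := by
          calc (X : ℝ) * (1 / 4 ^ K) * (1 / 2) ≤ n * tprod l' * (1 - η) := by
                gcongr; linarith
            _ ≤ s := hs1
        have h9 : (X : ℝ) = 2 * 4 ^ K * ((X : ℝ) * (1 / 4 ^ K) * (1 / 2)) := by field_simp
        rw [h9]; gcongr
      have hlow' : X ≤ 2 * 4 ^ K * s := by exact_mod_cast hlow
      have hhigh : (s : ℝ) ≤ 3 * 4 ^ K * X := by
        calc (s : ℝ) ≤ n * tprod l' * (1 + η) := hs2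
          _ ≤ (2 * X) * 4 ^ K * (1 + 1 / 2) := by gcongr
          _ = _ := by ring
      refine ⟨⟨?_, by exact_mod_cast hhigh⟩, ?_, hs3⟩
      · rcases Nat.eq_zero_or_pos s with h | h
        · rw [h] at hlow'; omega
        · exact h
      · calc X ≤ 2 * 4 ^ K * s := hlow'
          _ ≤ 3 * 4 ^ K * s := by gcongr; norm_num
    · rw [Finset.mem_filter]
      exact ⟨hn, hs1, hs2⟩
  have hcard := (Finset.card_le_card key).trans Finset.card_biUnion_le
  rw [Nat.card_Ioc] at hcard
  have hinner : ∀ l' ∈ l.inits.toFinset, ((((signSet f (3 * 4 ^ K) X).biUnion (fun s =>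
      (Finset.Ioc X (2 * X)).filter (fun n : ℕ =>
        (n : ℝ) * tprod l' * (1 - η) ≤ s ∧ (s : ℝ) ≤ n * tprod l' * (1 + η)))).card : ℕ) : ℝ)
      ≤ (signSet f (3 * 4 ^ K) X).card * (9 * η * X) := by
    intro l' hl'
    have hpre := (List.mem_inits _ _).1 (List.mem_toFinset.1 hl')
    have hl'St : ∀ v ∈ l', St D v := fun v hv => hl v (hpre.subset hv)
    obtain ⟨hT1, hT2⟩ := tprod_bounds l' hl'St
    have hT0 : 0 < tprod l' := lt_of_lt_of_le (by positivity) hT1
    have h1 : (((signSet f (3 * 4 ^ K) X).biUnion (fun s =>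
      (Finset.Ioc X (2 * X)).filter (fun n : ℕ =>
        (n : ℝ) * tprod l' * (1 - η) ≤ s ∧ (s : ℝ) ≤ n * tprod l' * (1 + η)))).card : ℝ)
        ≤ ∑ s ∈ signSet f (3 * 4 ^ K) X, (((Finset.Ioc X (2 * X)).filter (fun n : ℕ =>
        (n : ℝ) * tprod l' * (1 - η) ≤ s ∧ (s : ℝ) ≤ n * tprod l' * (1 + η))).card : ℝ) := by
      exact_mod_cast Finset.card_biUnion_le
    refine h1.trans ?_
    rw [← nsmul_eq_mul]
    apply Finset.sum_le_card_nsmul
    intro s _
    obtain ⟨F, hF⟩ : ∃ F, F = (Finset.Ioc X (2 * X)).filter (fun n : ℕ =>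
        (n : ℝ) * tprod l' * (1 - η) ≤ s ∧ (s : ℝ) ≤ n * tprod l' * (1 + η)) := ⟨_, rfl⟩
    rw [← hF]
    rcases F.eq_empty_or_nonempty with h0 | ⟨n0, hn0⟩
    · rw [h0, Finset.card_empty, Nat.cast_zero]
      positivity
    · have hn0' := hn0
      rw [hF, Finset.mem_filter, Finset.mem_Ioc] at hn0'
      have hn02 : (n0 : ℝ) ≤ 2 * X := by exact_mod_cast hn0'.1.2
      have hs1 : (s : ℝ) ≤ 2 * X * tprod l' * (1 + η) := by
        calc (s : ℝ) ≤ n0 * tprod l' * (1 + η) := hn0'.2.2
          _ ≤ _ := by gcongr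
      have h2 := card_le_interval F (α := s / (tprod l' * (1 + η)))
        (β := s / (tprod l' * (1 - η))) (by
          intro n hn
          rw [hF, Finset.mem_filter] at hn
          constructor
          · rw [div_le_iff₀ (by positivity)]
            have := hn.2.2
            linarith
          · rw [le_div_iff₀ (mul_pos hT0 (by linarith))]
            have := hn.2.1
            linarith) (by
          apply div_le_div_of_nonneg_left (by positivity) (mul_pos hT0 (by linarith))
          gcongr; linarith)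
      have h3 : (s : ℝ) / (tprod l' * (1 - η)) - s / (tprod l' * (1 + η)) ≤ 8 * η * X := by
        have e : (s : ℝ) / (tprod l' * (1 - η)) - s / (tprod l' * (1 + η))
            = s * (2 * η) / (tprod l' * (1 - η) * (1 + η)) := by
          have : (1 - η) ≠ 0 := by linarith
          have : (1 + η) ≠ 0 := by linarith
          field_simp; ring
        rw [e, div_le_iff₀ (by
          apply mul_pos (mul_pos hT0 (by linarith)) (by linarith))]
        calc (s : ℝ) * (2 * η) ≤ 2 * X * tprod l' * (1 + η) * (2 * η) := by gcongr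
          _ = (4 * η * X * tprod l' * (1 + η)) := by ring
          _ ≤ (4 * η * X * tprod l' * (1 + η)) * (2 * (1 - η)) := by
              have : 0 ≤ 4 * η * X * tprod l' * (1 + η) := by positivity
              nlinarith
          _ = _ := by ring
      nlinarith
  have hlen2 : ((l.inits.toFinset.card : ℕ) : ℝ) ≤ K + 1 := by
    have h1 := List.toFinset_card_le l.inits
    rw [List.length_inits] at h1
    have : l.inits.toFinset.card ≤ K + 1 := by omega
    exact_mod_cast this
  have hfin : (X : ℝ) ≤ (K + 1) * ((signSet f (3 * 4 ^ K) X).card * (9 * η * X)) := by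
    have h1 : (X : ℝ) ≤ ((∑ l' ∈ l.inits.toFinset, (((signSet f (3 * 4 ^ K) X).biUnion (fun s =>
      (Finset.Ioc X (2 * X)).filter (fun n : ℕ =>
        (n : ℝ) * tprod l' * (1 - η) ≤ s ∧ (s : ℝ) ≤ n * tprod l' * (1 + η)))).card) : ℕ) : ℝ) := by
      have : 2 * X - X = X := by omega
      rw [this] at hcard
      exact_mod_cast hcard
    push_cast at h1
    refine h1.trans ?_
    refine (Finset.sum_le_card_nsmul _ _ _ hinner).trans ?_
    rw [nsmul_eq_mul]
    gcongr
  have : (X : ℝ) * 1 ≤ X * ((K + 1) * ((signSet f (3 * 4 ^ K) X).card : ℝ) * (9 * η)) := by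
    linarith
  exact le_of_mul_le_mul_left this hX0

end Pool.Agent.SqrtParity
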