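import Mathlib
import Pool.Agent.SqrtParity.Signs

set_option autoImplicit false

/-!
# Many sign changes
-/

namespace Pool.Agent.SqrtParity

open Real

theorem CM.one {f : ℕ → ℤ} (hf : CM f) : f 1 = 1 := by
  have h1 := hf.mul 1 1 le_rfl le_rfl
  rw [mul_one] at h1
  rw [h1]; exact hf.sq le_rfl

theorem CM.four_pow {f : ℕ → ℤ} (hf : CM f) (j : ℕ) : f (4 ^ j) = 1 := by
  have h1 : 4 ^ j = 2 ^ j * 2 ^ j := by rw [← mul_pow]; norm_num
  have h2 : 1 ≤ 2 ^ j := Nat.one_le_two_pow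
  rw [h1, hf.mul _ _ h2 h2]; exact hf.sq h2

theorem Ok.st {A D : ℝ} {v : ℕ × ℕ} (h : Ok A v) (hAD : A ≤ D) : St D v := by
  obtain ⟨h1, h2, h3, h4, h5, h6⟩ := h
  exact ⟨h1, h2, by omega, by omega, h6.trans hAD⟩

theorem exists_list (r : ℕ) : ∃ (k : ℕ) (c A0 : ℝ), 0 < c ∧ 1 ≤ A0 ∧ ∀ A, A0 ≤ A →
    ∀ p : ℕ, 1 ≤ p → ∃ l : List (ℕ × ℕ), l.length ≤ k ∧ (∀ v ∈ l, St (p * A) v) ∧
      |lsum l| ≤ c / A ^ r ∧ ∀ f, CM f → sprod f l = f p := by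
  obtain ⟨k, c, A0, hc, hA0, h⟩ := approx r
  refine ⟨2 * k + 1, 2 * c, A0, by positivity, hA0, ?_⟩
  intro A hA p hp
  have hA1 : 1 ≤ A := hA0.trans hA
  have hp1 : (1 : ℝ) ≤ p := by exact_mod_cast hp
  have hpA : A ≤ p * A := by nlinarith
  obtain ⟨j, hj⟩ : ∃ j, j = Nat.log 4 p := ⟨_, rfl⟩
  have hj1 : 4 ^ j ≤ p := by rw [hj]; exact Nat.pow_log_le_self 4 (by omega)
  have hj2 : p < 4 ^ (j + 1) := by rw [hj]; exact Nat.lt_pow_succ_log_self (by norm_num) p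
  have h4j : (0 : ℝ) < ((4 ^ j : ℕ) : ℝ) := by positivity
  obtain ⟨φ, hφ⟩ : ∃ φ : ℝ, φ = (Real.log p - Real.log ((4 ^ j : ℕ) : ℝ)) / 2 := ⟨_, rfl⟩
  have hφ0 : 0 ≤ φ := by
    rw [hφ]
    have : Real.log ((4 ^ j : ℕ) : ℝ) ≤ Real.log p :=
      Real.log_le_log h4j (by exact_mod_cast hj1)
    linarith
  have hφ1 : φ ≤ 1 := by
    rw [hφ]
    have h1 : Real.log p ≤ Real.log (4 * ((4 ^ j : ℕ) : ℝ)) := by
      apply Real.log_le_log (by positivity)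
      have : p ≤ 4 * 4 ^ j := by rw [pow_succ] at hj2; omega
      exact_mod_cast this
    rw [Real.log_mul (by norm_num) h4j.ne'] at h1
    have h2 : Real.log 4 ≤ 2 := by
      have : (4 : ℝ) = 2 ^ 2 := by norm_num
      rw [this, Real.log_pow]
      have := Real.log_two_lt_d9
      push_cast; linarith
    linarith
  obtain ⟨ψ, ⟨l, hl1, hl2, hl3⟩, hψ⟩ := h A hA φ (by rw [abs_of_nonneg hφ0]; exact hφ1)
  refine ⟨(p, 4 ^ j) :: (l.map Prod.swap ++ l.map Prod.swap), ?_, ?_, ?_, ?_⟩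
  · simp; omega
  · intro v hv
    rw [List.mem_cons] at hv
    rcases hv with hv | hv
    · rw [hv]
      refine ⟨hp, Nat.one_le_pow _ _ (by norm_num), ?_, ?_, ?_⟩
      · show p ≤ 4 * 4 ^ j
        rw [pow_succ] at hj2; omega
      · show 4 ^ j ≤ 4 * p
        omega
      · have h1 : ((4 ^ j : ℕ) : ℝ) ≤ p := by exact_mod_cast hj1
        show ((4 ^ j : ℕ) : ℝ) ≤ p * A
        nlinarith
    · have hv' : v ∈ l.map Prod.swap := by
        rcases List.mem_append.1 hv with h | h <;> exact h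
      rw [List.mem_map] at hv'
      obtain ⟨w, hw, rfl⟩ := hv'
      exact (hl2 w hw).swap.st hpA
  · rw [lsum_cons, lsum_append, lsum_swap, hl3]
    have e : Real.log (p : ℝ) - Real.log ((4 ^ j : ℕ) : ℝ) + (-ψ + -ψ) = 2 * (φ - ψ) := by
      rw [hφ]; ring
    show |Real.log (p : ℝ) - Real.log ((4 ^ j : ℕ) : ℝ) + (-ψ + -ψ)| ≤ _
    rw [e, abs_mul, abs_two, mul_div_assoc]
    gcongr
  · intro f hf
    rw [sprod_cons, sprod_append]
    have h1 := sprod_sq hf (l.map Prod.swap) (by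
      intro v hv
      rw [List.mem_map] at hv
      obtain ⟨w, hw, rfl⟩ := hv
      exact ⟨(hl2 w hw).2.1, (hl2 w hw).1⟩)
    rw [h1]
    show f p * f (4 ^ j) * 1 = f p
    rw [hf.four_pow, mul_one, mul_one]

/-- a completely multiplicative `f` with `f p = -1` has at least `X ^ (1 - ε) / p` sign changes
between `X / W` and `W X` -/
theorem sign_changes {ε : ℝ} (hε : 0 < ε) : ∃ W X0 : ℕ, 1 ≤ W ∧ ∀ X : ℕ, X0 ≤ X →
    ∀ f, CM f → ∀ p : ℕ, 1 ≤ p → f p = -1 → (p : ℝ) ≤ (X : ℝ) ^ (1 - ε) →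
      (X : ℝ) ^ (1 - ε) / p ≤ ((signSet f W X).card : ℝ) := by
  obtain ⟨r, hr⟩ : ∃ r : ℕ, r = ⌈4 / ε⌉₊ := ⟨_, rfl⟩
  have hr1 : 4 / ε ≤ r := by rw [hr]; exact Nat.le_ceil _
  obtain ⟨K, c, A0, hc, hA0, hlist⟩ := exists_list r
  obtain ⟨M, hM⟩ : ∃ M : ℝ, M = A0 + 4 * c + 9 * (K + 1) * 4 ^ K := ⟨_, rfl⟩
  have h4K : (1 : ℝ) ≤ 4 ^ K := one_le_pow₀ (by norm_num)
  have hKpos : (0 : ℝ) ≤ K := by positivity
  have hM9 : 9 * ((K : ℝ) + 1) * 4 ^ K ≤ M := by rw [hM]; linarith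
  have hMA : A0 ≤ M := by
    rw [hM]
    have : 0 ≤ 9 * ((K : ℝ) + 1) * 4 ^ K := by positivity
    linarith
  have hMc : 4 * c ≤ M := by
    rw [hM]
    have : 0 ≤ 9 * ((K : ℝ) + 1) * 4 ^ K := by positivity
    linarith
  have hM1 : 9 ≤ M := by
    refine le_trans ?_ hM9
    nlinarith
  have hM4 : 2 * (4 : ℝ) ^ K ≤ M := by
    refine le_trans ?_ hM9
    nlinarith
  refine ⟨3 * 4 ^ K, ⌈M ^ (4 / ε)⌉₊ + 1, by
    have : 1 ≤ 4 ^ K := Nat.one_le_pow _ _ (by norm_num)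
    omega, ?_⟩
  intro X hX f hf p hp hfp hpX
  have hX1 : 1 ≤ X := by omega
  have hX0 : (0 : ℝ) < X := by exact_mod_cast hX1
  have hX1' : (1 : ℝ) ≤ X := by exact_mod_cast hX1
  have hp0 : (0 : ℝ) < p := by exact_mod_cast hp
  have hp1 : (1 : ℝ) ≤ p := by exact_mod_cast hp
  obtain ⟨Q, hQ⟩ : ∃ Q : ℝ, Q = (X : ℝ) ^ (ε / 4) := ⟨_, rfl⟩
  have hQM : M ≤ Q := by
    have h1 : M ^ (4 / ε) ≤ X := by
      calc M ^ (4 / ε) ≤ (⌈M ^ (4 / ε)⌉₊ : ℕ) := Nat.le_ceil _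
        _ ≤ X := by exact_mod_cast (by omega)
    calc M = (M ^ (4 / ε)) ^ (ε / 4) := by
          rw [← Real.rpow_mul (by linarith)]
          have : 4 / ε * (ε / 4) = 1 := by field_simp
          rw [this, Real.rpow_one]
      _ ≤ (X : ℝ) ^ (ε / 4) := by
          apply Real.rpow_le_rpow (by positivity) h1 (by positivity)
      _ = Q := hQ.symm
  have hQ1 : 1 ≤ Q := by linarith
  have hQ0 : 0 < Q := by linarith
  have hQ4 : (X : ℝ) ^ (1 - ε) * Q ^ 4 = X := by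
    rw [hQ, ← Real.rpow_natCast, ← Real.rpow_mul hX0.le, ← Real.rpow_add hX0]
    have : 1 - ε + ε / 4 * (4 : ℕ) = 1 := by push_cast; ring
    rw [this, Real.rpow_one]
  have hQr : (X : ℝ) ≤ Q ^ r := by
    rw [hQ, ← Real.rpow_natCast, ← Real.rpow_mul hX0.le]
    calc (X : ℝ) = (X : ℝ) ^ (1 : ℝ) := (Real.rpow_one _).symm
      _ ≤ _ := by
          apply Real.rpow_le_rpow_of_exponent_le hX1'
          calc (1 : ℝ) = ε / 4 * (4 / ε) := by field_simp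
            _ ≤ ε / 4 * r := by gcongr
  have hpQ : (p : ℝ) * Q ^ 4 ≤ X := by
    rw [← hQ4]; gcongr
  obtain ⟨η, hη⟩ : ∃ η : ℝ, η = 4 ^ K * (p * Q) / X := ⟨_, rfl⟩
  have hηX : 4 ^ K * (p * Q) = η * X := by rw [hη]; field_simp
  have hη0 : 0 < η := by rw [hη]; positivity
  have hηhalf : η ≤ 1 / 2 := by
    rw [hη, div_le_iff₀ hX0]
    have h1 : 2 * 4 ^ K ≤ Q := hM4.trans hQM
    have h2 : (p : ℝ) * Q ^ 2 ≤ p * Q ^ 4 := by
      have : Q ^ 2 ≤ Q ^ 4 := pow_le_pow_right₀ hQ1 (by norm_num)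
      gcongr
    nlinarith [mul_pos hp0 hQ0]
  obtain ⟨l, hl1, hl2, hl3, hl4⟩ := hlist Q (hMA.trans hQM) p hp
  have hraw := sign_raw hf hηhalf hη0 (D := p * Q) (by nlinarith) l X K hX1 hl1 hl2 hηX.le
    (by
      refine hl3.trans ?_
      rw [hη]
      have h1 : c / Q ^ r ≤ c / X := by gcongr
      refine h1.trans ?_
      rw [div_div, div_le_div_iff₀ hX0 (by positivity)]
      have h2 : 4 * c ≤ Q := hMc.trans hQM
      have h3 : 1 * (1 * Q) ≤ 4 ^ K * (p * Q) := by gcongr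
      nlinarith)
    (by rw [hl4 f hf, hfp])
  -- conclusion
  rw [hη] at hraw
  have hS0 : (0 : ℝ) ≤ ((signSet f (3 * 4 ^ K) X).card : ℝ) := Nat.cast_nonneg _
  generalize ((signSet f (3 * 4 ^ K) X).card : ℝ) = S at hraw hS0 ⊢
  have h1 : (X : ℝ) ≤ (K + 1) * S * (9 * (4 ^ K * (p * Q))) := by
    calc (X : ℝ) = X * 1 := (mul_one _).symm
      _ ≤ X * ((K + 1) * S * (9 * (4 ^ K * (p * Q) / X))) := by
          gcongr
      _ = _ := by field_simp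
  rw [div_le_iff₀ hp0]
  have h2 : (X : ℝ) ^ (1 - ε) * Q ^ 4 ≤ (S * p) * Q ^ 4 := by
    rw [hQ4]
    calc (X : ℝ) ≤ (K + 1) * S * (9 * (4 ^ K * (p * Q))) := h1
      _ = (S * p) * (Q * (9 * (K + 1) * 4 ^ K)) := by ring
      _ ≤ (S * p) * (Q * Q) := by
          gcongr
          exact hM9.trans hQM
      _ ≤ (S * p) * Q ^ 4 := by
          gcongr
          calc Q * Q = Q ^ 2 := by ring
            _ ≤ Q ^ 4 := pow_le_pow_right₀ hQ1 (by norm_num)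
  exact le_of_mul_le_mul_right h2 (by positivity)

end Pool.Agent.SqrtParity
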