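import Mathlib
import Pool.Agent.SqrtParity.SignChanges

set_option autoImplicit false

/-!
# From sign changes to products in a short interval
-/

namespace Pool.Agent.SqrtParity

open Real

theorem exists_change {f : ℕ → ℤ} {a : ℕ} : ∀ {d : ℕ}, f a ≠ f (a + d) →
    ∃ s, a ≤ s ∧ s < a + d ∧ f s ≠ f (s + 1) := by
  intro d
  induction d with
  | zero => intro h; exact absurd rfl h
  | succ d ih =>
    intro h
    by_cases h1 : f a = f (a + d)
    · exact ⟨a + d, by omega, by omega, by rw [← h1]; exact h⟩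
    · obtain ⟨s, h2, h3, h4⟩ := ih h1
      exact ⟨s, h2, by omega, h4⟩

theorem local_step {f : ℕ → ℤ} (hf : CM f) {s k : ℕ} (hs : 1 ≤ s) (hk : 1 ≤ k)
    (h : f s ≠ f (s + 1)) : ∃ s', k * s ≤ s' ∧ s' < k * (s + 1) ∧ f s' ≠ f (s' + 1) := by
  have h1 : f (k * s) ≠ f (k * s + k) := by
    have : k * s + k = k * (s + 1) := by ring
    rw [this, hf.mul k s hk hs, hf.mul k (s + 1) hk (by omega)]
    intro h2
    apply h
    have h3 := hf.sq hk
    calc f s = f k * f k * f s := by rw [h3, one_mul]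
      _ = f k * (f k * f s) := by ring
      _ = f k * (f k * f (s + 1)) := by rw [h2]
      _ = f k * f k * f (s + 1) := by ring
      _ = _ := by rw [h3, one_mul]
  obtain ⟨s', h2, h3, h4⟩ := exists_change h1
  exact ⟨s', h2, by rw [mul_add, mul_one]; exact h3, h4⟩

open Classical in
/-- the integers in `(x, x + c √x]` with `f m = e` -/
noncomputable def valSet (f : ℕ → ℤ) (x c : ℝ) (e : ℤ) : Finset ℕ :=
  (Finset.Icc 1 ⌊x + c * √x⌋₊).filter (fun m => x < m ∧ f m = e)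

/-- a sign change near `√x` gives products of both signs in `(x, x + c √x]` -/
theorem hyperbola {f : ℕ → ℤ} (hf : CM f) {x c κ : ℝ} (hx : 1 ≤ √x) (hκ : κ ^ 2 ≤ (c - 2) / 2)
    (hY : 1 ≤ (c - 2) / 2 * √x) {s : ℕ} (hs1 : √x ≤ s) (hs2 : (s : ℝ) ≤ (1 + κ) * √x)
    (h : f s ≠ f (s + 1)) {e : ℤ} (he : e = 1 ∨ e = -1) :
    ∃ m ∈ valSet f x c e, s ∣ m ∨ s + 1 ∣ m := by
  have hx0 : 0 ≤ x := by
    by_contra hcon
    push Not at hcon
    rw [Real.sqrt_eq_zero_of_nonpos hcon.le] at hx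
    linarith
  have hsq : √x * √x = x := Real.mul_self_sqrt hx0
  have hs0 : (0 : ℝ) < s := by linarith
  have hs3 : 1 ≤ s := by exact_mod_cast (show (1 : ℝ) ≤ s by linarith)
  obtain ⟨R, hR⟩ : ∃ R : ℕ, R = ⌊x / s⌋₊ + 1 := ⟨_, rfl⟩
  have hR1 : x / s < R := by rw [hR]; push_cast; exact Nat.lt_floor_add_one _
  have hR2 : (R : ℝ) ≤ x / s + 1 := by
    rw [hR]; push_cast
    have := Nat.floor_le (by positivity : 0 ≤ x / s)
    linarith
  have hR3 : 1 ≤ R := by omega
  rw [div_lt_iff₀ hs0] at hR1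
  have hup : (R : ℝ) * (s + 1) ≤ x + c * √x := by
    have hβ : x / s + s ≤ (2 + κ ^ 2) * √x := by
      have e1 : x / s + s = 2 * √x + (s - √x) ^ 2 / s := by
        field_simp
        nlinarith
      rw [e1]
      have e2 : ((s : ℝ) - √x) ^ 2 / s ≤ κ ^ 2 * √x := by
        rw [div_le_iff₀ hs0]
        have h1 : ((s : ℝ) - √x) ^ 2 ≤ (κ * √x) ^ 2 := by
          apply pow_le_pow_left₀ (by linarith)
          linarith
        calc ((s : ℝ) - √x) ^ 2 ≤ (κ * √x) ^ 2 := h1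
          _ = κ ^ 2 * √x * √x := by ring
          _ ≤ κ ^ 2 * √x * s := by gcongr
      linarith
    have e3 : x / s * (s + 1) = x + x / s := by field_simp
    calc (R : ℝ) * (s + 1) ≤ (x / s + 1) * (s + 1) := by gcongr
      _ = x + (x / s + s) + 1 := by rw [add_mul, e3]; ring
      _ ≤ x + (2 + κ ^ 2) * √x + (c - 2) / 2 * √x := by linarith
      _ ≤ x + (2 + (c - 2) / 2) * √x + (c - 2) / 2 * √x := by gcongr
      _ = _ := by ring
  have mem : ∀ t : ℕ, (t = s ∨ t = s + 1) → f (R * t) = e → R * t ∈ valSet f x c e := by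
    intro t ht hfe
    have ht1 : (s : ℝ) ≤ t := by
      have : s ≤ t := by omega
      exact_mod_cast this
    have ht2 : (t : ℝ) ≤ s + 1 := by
      have : t ≤ s + 1 := by omega
      exact_mod_cast this
    rw [valSet, Finset.mem_filter, Finset.mem_Icc]
    refine ⟨⟨?_, ?_⟩, ?_, hfe⟩
    · have : 1 ≤ t := by omega
      calc 1 = 1 * 1 := rfl
        _ ≤ R * t := Nat.mul_le_mul hR3 this
    · apply Nat.le_floor
      push_cast
      calc (R : ℝ) * t ≤ R * (s + 1) := by gcongr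
        _ ≤ _ := hup
    · push_cast
      calc x < R * s := hR1
        _ ≤ R * t := by gcongr
  have hm1 := hf.mul R s hR3 hs3
  have hm2 := hf.mul R (s + 1) hR3 (by omega)
  have hne : f (R * s) = e ∨ f (R * (s + 1)) = e := by
    rcases hf.one_or R hR3 with h1 | h1 <;> rcases hf.one_or s hs3 with h2 | h2 <;>
    rcases hf.one_or (s + 1) (by omega) with h3 | h3 <;> rw [h1, h2] at hm1 <;>
    rw [h1, h3] at hm2 <;> rw [hm1, hm2] <;> rcases he with rfl | rfl <;> simp <;>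
    (apply h; rw [h2, h3])
  rcases hne with h1 | h1
  · exact ⟨R * s, mem s (Or.inl rfl) h1, Or.inl (dvd_mul_left _ _)⟩
  · exact ⟨R * (s + 1), mem (s + 1) (Or.inr rfl) h1, Or.inr (dvd_mul_left _ _)⟩

theorem transfer {f : ℕ → ℤ} (hf : CM f) {x c κ : ℝ} {W X k0 Dm : ℕ} (hx : 1 ≤ √x)
    (hκ0 : 0 < κ) (hκ : κ ^ 2 ≤ (c - 2) / 2) (hY : 1 ≤ (c - 2) / 2 * √x)
    (h1 : (W * X : ℝ) ≤ κ * √x / 4) (h2 : κ * √x ≤ 8 * W * X)
    (h3 : 8 * (W : ℝ) ^ 2 / κ + 1 ≤ k0) (h4 : (k0 : ℝ) ≤ κ * √x / 4)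
    (hD : ∀ m : ℕ, 1 ≤ m → (m : ℝ) ≤ x + c * √x → m.divisors.card ≤ Dm)
    {e : ℤ} (he : e = 1 ∨ e = -1) :
    (signSet f W X).card ≤ (valSet f x c e).card * (Dm * (k0 * 2)) := by
  classical
  have hx0 : 0 ≤ x := by
    by_contra hcon
    push Not at hcon
    rw [Real.sqrt_eq_zero_of_nonpos hcon.le] at hx
    linarith
  have hc : 0 ≤ c := by
    have : 0 ≤ κ ^ 2 := by positivity
    linarith
  have key : signSet f W X ⊆ (valSet f x c e).biUnion (fun m =>
      (m.divisors ×ˢ (Finset.Icc 1 k0 ×ˢ Finset.range 2)).image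
        (fun q => (q.1 - q.2.2) / q.2.1)) := by
    intro s hs
    rw [signSet, Finset.mem_filter, Finset.mem_Icc] at hs
    obtain ⟨⟨hs1, hs2⟩, hs3, hs4⟩ := hs
    have hs0 : (0 : ℝ) < s := by exact_mod_cast hs1
    have hs2' : (s : ℝ) ≤ κ * √x / 4 := by
      calc (s : ℝ) ≤ W * X := by exact_mod_cast hs2
        _ ≤ _ := h1
    have hs3' : √x / s ≤ 8 * (W : ℝ) ^ 2 / κ := by
      rw [div_le_div_iff₀ hs0 hκ0]
      have : (X : ℝ) ≤ W * s := by exact_mod_cast hs3
      calc √x * κ = κ * √x := by ring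
        _ ≤ 8 * W * X := h2
        _ ≤ 8 * W * (W * s) := by gcongr
        _ = _ := by ring
    obtain ⟨k, hk⟩ : ∃ k : ℕ, k = ⌈√x / s⌉₊ := ⟨_, rfl⟩
    have hk1 : √x / s ≤ k := by rw [hk]; exact Nat.le_ceil _
    have hk2 : (k : ℝ) < √x / s + 1 := by rw [hk]; exact Nat.ceil_lt_add_one (by positivity)
    have hk3 : 1 ≤ k := by
      rw [hk]; exact Nat.one_le_ceil_iff.2 (by positivity)
    have hk4 : k ≤ k0 := by
      have : (k : ℝ) < k0 := by linarith
      exact_mod_cast this.le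
    rw [div_le_iff₀ hs0] at hk1
    obtain ⟨s', ha, hb, hc'⟩ := local_step hf hs1 hk3 hs4
    have ha' : √x ≤ s' := by
      calc √x ≤ k * s := hk1
        _ ≤ s' := by exact_mod_cast ha
    have hb' : (s' : ℝ) ≤ (1 + κ) * √x := by
      have e1 : (s' : ℝ) ≤ k * (s + 1) := by exact_mod_cast hb.le
      have e2 : (k : ℝ) * s ≤ √x + s := by
        calc (k : ℝ) * s ≤ (√x / s + 1) * s := by gcongr
          _ = _ := by field_simp
      have e3 : (k : ℝ) ≤ k0 := by exact_mod_cast hk4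
      nlinarith
    obtain ⟨m, hm1, hm2⟩ := hyperbola hf hx hκ hY ha' hb' hc' he
    rw [Finset.mem_biUnion]
    refine ⟨m, hm1, ?_⟩
    rw [valSet, Finset.mem_filter, Finset.mem_Icc] at hm1
    have hdiv : s' / k = s := by
      apply Nat.div_eq_of_lt_le
      · rw [mul_comm]; exact ha
      · rw [mul_comm]; exact hb
    rw [Finset.mem_image]
    rcases hm2 with h | h
    · refine ⟨(s', k, 0), ?_, by simpa using hdiv⟩
      simp only [Finset.mem_product, Nat.mem_divisors, Finset.mem_Icc, Finset.mem_range]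
      exact ⟨⟨h, by omega⟩, ⟨hk3, hk4⟩, by omega⟩
    · refine ⟨(s' + 1, k, 1), ?_, by simpa using hdiv⟩
      simp only [Finset.mem_product, Nat.mem_divisors, Finset.mem_Icc, Finset.mem_range]
      exact ⟨⟨h, by omega⟩, ⟨hk3, hk4⟩, by omega⟩
  refine (Finset.card_le_card key).trans ?_
  refine Finset.card_biUnion_le_card_mul _ _ _ ?_
  intro m hm
  rw [valSet, Finset.mem_filter, Finset.mem_Icc] at hm
  refine Finset.card_image_le.trans ?_
  rw [Finset.card_product, Finset.card_product, Nat.card_Icc, Finset.card_range]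
  have hfl : (m : ℝ) ≤ x + c * √x := by
    calc (m : ℝ) ≤ (⌊x + c * √x⌋₊ : ℕ) := by exact_mod_cast hm.1.2
      _ ≤ _ := Nat.floor_le (by positivity)
  have := hD m hm.1.1 hfl
  simp only [Nat.add_sub_cancel]
  gcongr

end Pool.Agent.SqrtParity
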