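import Mathlib
import Pool.Agent.SqrtParity.Window
import Pool.Agent.FareyParity.Count

set_option autoImplicit false

/-!
# The parity theorem for the intervals `(x, x + c √x]`, `c > 2`
-/

namespace Pool.Agent.SqrtParity

open Real Filter

theorem interval {c ε : ℝ} (hc : 2 < c) (hε : 0 < ε) (hε1 : ε < 1) : ∃ x0 : ℝ, 1 ≤ x0 ∧
    ∀ x, x0 ≤ x → ∀ f, CM f → ∀ p : ℕ, 1 ≤ p → f p = -1 → (p : ℝ) ≤ x ^ (1 / 2 - ε) →
      ∀ e : ℤ, (e = 1 ∨ e = -1) → x ^ (1 / 2 - ε) / p ≤ ((valSet f x c e).card : ℝ) := by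
  obtain ⟨W, X0, hW, hsign⟩ := sign_changes (ε := ε / 2) (by positivity)
  obtain ⟨Cd, hCd, hdiv⟩ := FareyParity.divisor_bound (ε := ε / 2) (by positivity)
  obtain ⟨κ, hκdef⟩ : ∃ κ : ℝ, κ = min 1 ((c - 2) / 2) := ⟨_, rfl⟩
  have hκ0 : 0 < κ := by rw [hκdef]; apply lt_min one_pos; linarith
  have hκ1 : κ ≤ 1 := by rw [hκdef]; exact min_le_left _ _
  have hκ2 : κ ≤ (c - 2) / 2 := by rw [hκdef]; exact min_le_right _ _
  have hκ : κ ^ 2 ≤ (c - 2) / 2 := by nlinarith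
  have hW0 : (0 : ℝ) < W := by exact_mod_cast hW
  obtain ⟨κ', hκ'⟩ : ∃ κ' : ℝ, κ' = κ / (8 * W) := ⟨_, rfl⟩
  have hκ'0 : 0 < κ' := by rw [hκ']; positivity
  obtain ⟨k0, hk0⟩ : ∃ k0 : ℕ, k0 = ⌈8 * (W : ℝ) ^ 2 / κ + 1⌉₊ := ⟨_, rfl⟩
  have hk0' : 8 * (W : ℝ) ^ 2 / κ + 1 ≤ k0 := by rw [hk0]; exact Nat.le_ceil _
  obtain ⟨L, hL⟩ : ∃ L : ℝ, L = κ' ^ (1 - ε / 2) := ⟨_, rfl⟩
  have hL0 : 0 < L := by rw [hL]; positivity
  obtain ⟨G, hG⟩ : ∃ G : ℝ, G = 2 * k0 * (Cd * (1 + c) ^ (ε / 2)) := ⟨_, rfl⟩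
  have hG0 : 0 ≤ G := by rw [hG]; positivity
  have ev1 : ∀ᶠ x : ℝ in atTop, (G + 1) / L ≤ x ^ (ε / 4) :=
    (tendsto_rpow_atTop (by positivity)).eventually_ge_atTop _
  have ev2 : ∀ᶠ x : ℝ in atTop,
      1 + 4 * (k0 : ℝ) / κ + 2 / (c - 2) + 1 / κ' + (X0 : ℝ) / κ' ≤ √x :=
    tendsto_sqrt_atTop.eventually_ge_atTop _
  obtain ⟨x0, hx0⟩ := eventually_atTop.1 (ev1.and (ev2.and (eventually_ge_atTop 1)))
  refine ⟨max x0 1, le_max_right _ _, ?_⟩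
  intro x hx f hf p hp hfp hpx e he
  obtain ⟨h1, h2, h3⟩ := hx0 x ((le_max_left _ _).trans hx)
  have hxpos : 0 < x := by linarith
  have hp0 : (0 : ℝ) < p := by exact_mod_cast hp
  have hc2 : 0 < c - 2 := by linarith
  have t1 : 0 ≤ 4 * (k0 : ℝ) / κ := by positivity
  have t2 : 0 ≤ 2 / (c - 2) := by positivity
  have t3 : 0 ≤ 1 / κ' := by positivity
  have t4 : 0 ≤ (X0 : ℝ) / κ' := by positivity
  have hY1 : 1 ≤ √x := by linarith
  have hY2 : 4 * (k0 : ℝ) / κ ≤ √x := by linarith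
  have hY3 : 2 / (c - 2) ≤ √x := by linarith
  have hY4 : 1 / κ' ≤ √x := by linarith
  have hY5 : (X0 : ℝ) / κ' ≤ √x := by linarith
  obtain ⟨X, hX⟩ : ∃ X : ℕ, X = ⌊κ * √x / (4 * W)⌋₊ := ⟨_, rfl⟩
  have hX1 : (X : ℝ) ≤ κ * √x / (4 * W) := by rw [hX]; exact Nat.floor_le (by positivity)
  have hX2 : κ * √x / (4 * W) < X + 1 := by rw [hX]; exact Nat.lt_floor_add_one _
  have hX3 : κ' * √x ≤ X := by
    have e1 : κ * √x / (4 * W) = 2 * (κ' * √x) := by rw [hκ']; field_simp; ring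
    have e2 : 1 ≤ κ' * √x := by
      rw [div_le_iff₀ hκ'0] at hY4; linarith
    linarith
  have hX4 : X0 ≤ X := by
    have : (X0 : ℝ) ≤ X := by
      rw [div_le_iff₀ hκ'0] at hY5
      linarith
    exact_mod_cast this
  have hsx : √x = x ^ ((1 : ℝ) / 2) := Real.sqrt_eq_rpow x
  -- the power of X
  have hXpow : L * x ^ (1 / 2 - ε / 4) ≤ (X : ℝ) ^ (1 - ε / 2) := by
    calc L * x ^ (1 / 2 - ε / 4) = (κ' * √x) ^ (1 - ε / 2) := by
          rw [Real.mul_rpow hκ'0.le (Real.sqrt_nonneg x), hL, hsx, ← Real.rpow_mul hxpos.le]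
          congr 2; ring
      _ ≤ (X : ℝ) ^ (1 - ε / 2) := by
          apply Real.rpow_le_rpow (by positivity) hX3 (by linarith)
  have hbig : (G + 1) * x ^ (1 / 2 - ε) * x ^ (ε / 2) ≤ L * x ^ (1 / 2 - ε / 4) := by
    rw [div_le_iff₀ hL0] at h1
    calc (G + 1) * x ^ (1 / 2 - ε) * x ^ (ε / 2)
        ≤ (x ^ (ε / 4) * L) * x ^ (1 / 2 - ε) * x ^ (ε / 2) := by gcongr
      _ = L * (x ^ (ε / 4) * x ^ (1 / 2 - ε) * x ^ (ε / 2)) := by ring
      _ = L * x ^ (1 / 2 - ε / 4) := by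
          rw [← Real.rpow_add hxpos, ← Real.rpow_add hxpos]
          congr 2; ring
  have hxe : 1 ≤ x ^ (ε / 2) := Real.one_le_rpow h3 (by positivity)
  have hpX : (p : ℝ) ≤ (X : ℝ) ^ (1 - ε / 2) := by
    calc (p : ℝ) ≤ x ^ (1 / 2 - ε) := hpx
      _ ≤ (G + 1) * x ^ (1 / 2 - ε) * x ^ (ε / 2) := by
          have : 0 ≤ x ^ (1 / 2 - ε) := by positivity
          calc x ^ (1 / 2 - ε) = 1 * x ^ (1 / 2 - ε) * 1 := by ring
            _ ≤ _ := by gcongr; linarith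
      _ ≤ _ := hbig.trans hXpow
  have hS := hsign X hX4 f hf p hp hfp hpX
  obtain ⟨Dm, hDm⟩ : ∃ Dm : ℕ, Dm = ⌊Cd * ((1 + c) * x) ^ (ε / 2)⌋₊ := ⟨_, rfl⟩
  have hDm1 : (Dm : ℝ) ≤ Cd * ((1 + c) * x) ^ (ε / 2) := by
    rw [hDm]; exact Nat.floor_le (by positivity)
  have htr := transfer hf (x := x) (c := c) (κ := κ) (W := W) (X := X) (k0 := k0) (Dm := Dm)
    hY1 hκ0 hκ (by
      rw [div_le_iff₀ hc2] at hY3; linarith) (by
      calc (W * X : ℝ) ≤ W * (κ * √x / (4 * W)) := by gcongr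
        _ = _ := by field_simp) (by
      calc κ * √x = 8 * W * (κ' * √x) := by rw [hκ']; field_simp
        _ ≤ 8 * W * X := by gcongr) hk0' (by
      rw [div_le_iff₀ hκ0] at hY2; linarith) (by
      intro m hm1 hm2
      rw [hDm]
      apply Nat.le_floor
      calc (m.divisors.card : ℝ) ≤ Cd * (m : ℝ) ^ (ε / 2) := hdiv m (by omega)
        _ ≤ Cd * ((1 + c) * x) ^ (ε / 2) := by
            gcongr
            have : √x ≤ x := by
              calc √x = √x * 1 := (mul_one _).symm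
                _ ≤ √x * √x := by gcongr
                _ = x := Real.mul_self_sqrt hxpos.le
            nlinarith) he
  have htr' : ((signSet f W X).card : ℝ) ≤ ((valSet f x c e).card : ℝ) * (Dm * (k0 * 2)) := by
    exact_mod_cast htr
  generalize ((signSet f W X).card : ℝ) = S at hS htr'
  have hV0 : (0 : ℝ) ≤ ((valSet f x c e).card : ℝ) := Nat.cast_nonneg _
  generalize ((valSet f x c e).card : ℝ) = V at htr' hV0 ⊢
  rw [div_le_iff₀ hp0] at hS ⊢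
  have hfin : x ^ (1 / 2 - ε) * ((G + 1) * x ^ (ε / 2)) ≤ (V * p) * ((G + 1) * x ^ (ε / 2)) := by
    calc x ^ (1 / 2 - ε) * ((G + 1) * x ^ (ε / 2))
        = (G + 1) * x ^ (1 / 2 - ε) * x ^ (ε / 2) := by ring
      _ ≤ (X : ℝ) ^ (1 - ε / 2) := hbig.trans hXpow
      _ ≤ S * p := hS
      _ ≤ (V * (Dm * (k0 * 2))) * p := by gcongr
      _ ≤ (V * (Cd * ((1 + c) * x) ^ (ε / 2) * (k0 * 2))) * p := by gcongr
      _ = (V * p) * (G * x ^ (ε / 2)) := by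
          rw [Real.mul_rpow (by linarith) hxpos.le, hG]; ring
      _ ≤ (V * p) * ((G + 1) * x ^ (ε / 2)) := by
          gcongr
          linarith
  exact le_of_mul_le_mul_right hfin (by positivity)

end Pool.Agent.SqrtParity
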